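import Mathlib

set_option autoImplicit false

namespace Pool.Agent.Lib.MP_9e467c_al

open Equiv

/-- The rooted tree `T` over the alphabet `X` (that is `T_𝔛` for the constant sequence `X_n = X`).
Its vertices are the finite words over `X`, each word `u` is joined by an edge to each word
`u x` with `x` in `X`, and the root is the empty word. -/
def tree (X : Type) : SimpleGraph (List X) where
  Adj u v := (∃ x, v = u ++ [x]) ∨ (∃ x, u = v ++ [x])
  symm := ⟨fun _ _ h => h.symm⟩
  loopless := ⟨by
    rintro u (⟨x, hx⟩ | ⟨x, hx⟩) <;> simpa using congrArg List.length hx⟩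

variable {X : Type}

/-- `Aut(T)`: the permutations of the vertices of `T` that are graph automorphisms of `T` and
preserve each layer (the `n`-th layer is the set of words of length `n`). -/
def AutTree (X : Type) : Subgroup (Perm (List X)) where
  carrier := {g | (∀ u v, (tree X).Adj (g u) (g v) ↔ (tree X).Adj u v) ∧
    ∀ v, (g v).length = v.length}
  one_mem' := ⟨fun _ _ => Iff.rfl, fun _ => rfl⟩
  mul_mem' := fun {g h} hg hh =>
    ⟨fun u v => (hg.1 (h u) (h v)).trans (hh.1 u v), fun v => (hg.2 (h v)).trans (hh.2 v)⟩
  inv_mem' := fun {g} hg => by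
    refine ⟨fun u v => ?_, fun v => ?_⟩
    · have := hg.1 (g⁻¹ u) (g⁻¹ v)
      simp only [Perm.coe_inv, Equiv.apply_symm_apply] at this
      exact this.symm
    · have := hg.2 (g⁻¹ v)
      simp only [Perm.coe_inv, Equiv.apply_symm_apply] at this
      exact this.symm

/-- The layer stabiliser `St_G(n)`: the pointwise stabiliser in `G` of the `n`-th layer. -/
def layerStab (G : Subgroup (Perm (List X))) (n : ℕ) : Subgroup (Perm (List X)) where
  carrier := {g | g ∈ G ∧ ∀ v : List X, v.length = n → g v = v}
  one_mem' := ⟨G.one_mem, fun _ _ => rfl⟩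
  mul_mem' := fun {g h} hg hh => ⟨G.mul_mem hg.1 hh.1, fun v hv => by
    rw [Perm.mul_apply, hh.2 v hv, hg.2 v hv]⟩
  inv_mem' := fun {g} hg => ⟨G.inv_mem hg.1, fun v hv => by
    rw [Perm.inv_eq_iff_eq]; exact (hg.2 v hv).symm⟩

/-- The rigid vertex stabiliser `rist_G(v)` of a vertex `v` of length `n`: the elements of
`St_G(n)` that act trivially on every subtree rooted at a vertex `u ≠ v` of length `n`
(the subtree rooted at `u` consists of the words with prefix `u`). -/
def rist (G : Subgroup (Perm (List X))) (v : List X) : Subgroup (Perm (List X)) where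
  carrier := {g | g ∈ layerStab G v.length ∧
    ∀ u : List X, u.length = v.length → u ≠ v → ∀ w : List X, u <+: w → g w = w}
  one_mem' := ⟨(layerStab G v.length).one_mem, fun _ _ _ _ _ => rfl⟩
  mul_mem' := fun {g h} hg hh => ⟨(layerStab G v.length).mul_mem hg.1 hh.1,
    fun u hu huv w hw => by
      rw [Perm.mul_apply, hh.2 u hu huv w hw, hg.2 u hu huv w hw]⟩
  inv_mem' := fun {g} hg => ⟨(layerStab G v.length).inv_mem hg.1, fun u hu huv w hw => by
    rw [Perm.inv_eq_iff_eq]; exact (hg.2 u hu huv w hw).symm⟩

/-- The `n`-th rigid layer stabiliser `Rist_G(n)`: the subgroup generated by the rigid vertex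
stabilisers `rist_G(v)` of all vertices `v` of length `n`. -/
def Rist (G : Subgroup (Perm (List X))) (n : ℕ) : Subgroup (Perm (List X)) :=
  Subgroup.closure {g | ∃ v : List X, v.length = n ∧ g ∈ rist G v}

/-- `G` is a branch group with respect to its action on `T`: it is a subgroup of `Aut(T)`, it is
spherically transitive (transitive on every layer), and every `Rist_G(n)` has finite index in `G`
(`Subgroup.relIndex H G` is the index `[G : H]`, with the value `0` encoding an infinite index). -/
structure IsBranch (G : Subgroup (Perm (List X))) : Prop where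
  le_aut : G ≤ AutTree X
  transitive : ∀ u v : List X, u.length = v.length → ∃ g ∈ G, g u = v
  finite_index : ∀ n : ℕ, (Rist G n).relIndex G ≠ 0

end Pool.Agent.Lib.MP_9e467c_al
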