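import Pool.Agent.Lib.MP_9e467c_al.Exist

set_option autoImplicit false
set_option linter.unusedSectionVars false

namespace Pool.Agent.Lib.MP_9e467c_al

open Equiv Subgroup
open scoped commutatorElement

section

variable {X C : Type} [Fintype X] [DecidableEq X] [CommGroup C]
  (A : Subgroup (Perm X)) (κ : C →* Perm X) (p q : X)
  {o : X} (hA : ∀ (d : A × C) (x : X), x ≠ o → om A κ p q x d ∈ A)

theorem atv_snoc (u : List X) (x : X) (g : Perm (List X)) :
    atv (u ++ [x]) g = atv u (at' x g) := by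
  induction u with
  | nil => rfl
  | cons y u ih => rw [List.cons_append, atv_cons, ih, atv_cons]

theorem atv_commute {u v : List X} (h1 : ∀ w, ¬ (v <+: u ++ w)) (h2 : ∀ w, ¬ (u <+: v ++ w))
    (g k : Perm (List X)) : Commute (atv u g) (atv v k) := by
  have : ∀ z, (atv u g * atv v k) z = (atv v k * atv u g) z := by
    intro z
    rw [Perm.mul_apply, Perm.mul_apply]
    by_cases hu : u <+: z
    · obtain ⟨w, rfl⟩ := hu
      rw [atv_of_not_prefix (h1 w), atv_append, atv_of_not_prefix (h1 _)]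
    · rw [atv_of_not_prefix hu]
      by_cases hv : v <+: z
      · obtain ⟨w, rfl⟩ := hv
        rw [atv_append, atv_of_not_prefix (h2 _)]
      · rw [atv_of_not_prefix hv, atv_of_not_prefix hu]
  exact Equiv.ext this

/-- moving a directed automorphism up to the root, modulo finitary elements -/
theorem dir_mem_of_atv_mem (φ : A × C →* C) (htr : ∀ x y : X, ∃ a ∈ A, a x = y)
    {M : Subgroup (Perm (List X))} (hF : GG φ hA (⊥ : Subgroup (A × C)) ≤ M) (d : A × C) (n : ℕ) :
    ∀ v : List X, v.length = n → atv v (dir o (om A κ p q) d) ∈ M →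
      dir o (om A κ p q) d ∈ M := by
  have hW := isWr_GG φ hA (⊥ : Subgroup (A × C))
  induction n with
  | zero =>
    intro v hv h
    rw [List.length_eq_zero_iff] at hv
    subst hv
    exact h
  | succ n ih =>
    intro v hv h
    let u : List X := List.replicate n o
    have hu : v.length = (u ++ [o]).length := by simp [u, hv]
    obtain ⟨h', hh', hhw⟩ := hW.trans_strong htr v (u ++ [o]) hu
    have h1 := transport_atv (hF hh') hhw h
    rw [atv_snoc] at h1
    apply ih u (by simp [u])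
    have h2 : dir o (om A κ p q) d ∈ M.comap (atv u) := by
      apply dir_mem_of_at'_mem
      · exact h1
      · intro x hx
        exact hF (hW.atv_mem u (hW.at'_mem x (hW.rooted_mem (hA d x hx))))
    exact h2

/-- finite index overgroups of the group with directed part `1 × C` are everything -/
theorem dense_part [Finite C] (φ : A × C →* C) (hperf : commutator A = ⊤)
    (htr : ∀ x y : X, ∃ a ∈ A, a x = y) (hpq : p ≠ q)
    {M : Subgroup (Perm (List X))}
    (hM : GG φ hA (MonoidHom.fst A C).ker ≤ M)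
    (hfin : M.relIndex (GG φ hA (⊤ : Subgroup (A × C))) ≠ 0) :
    GG φ hA (⊤ : Subgroup (A × C)) ≤ M := by
  set G := GG φ hA (⊤ : Subgroup (A × C)) with hG
  have hQ : Finite (G ⧸ M.subgroupOf G) := Subgroup.index_ne_zero_iff_finite.1 hfin
  have hGW : IsWr A G := isWr_GG φ hA (⊤ : Subgroup (A × C))
  have hF : GG φ hA (⊥ : Subgroup (A × C)) ≤ M := (GG_mono φ hA bot_le).trans hM
  let v : ℕ → List X := fun n => List.replicate n p ++ [q]
  let g : ℕ → A → Perm (List X) := fun n a => atv (v n) (dir o (om A κ p q) (a, 1))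
  have hgG : ∀ n a, g n a ∈ G := fun n a =>
    hGW.atv_mem _ (dir_mem_GG φ hA (Subgroup.mem_top _))
  let F : ℕ → (A → G ⧸ M.subgroupOf G) := fun n a => QuotientGroup.mk (⟨g n a, hgG n a⟩ : G)
  obtain ⟨y, hy⟩ := Finite.exists_infinite_fiber F
  have hy' : (F ⁻¹' {y}).Infinite := Set.infinite_coe_iff.1 hy
  obtain ⟨i, hi⟩ := hy'.nonempty
  obtain ⟨j, hj, hij⟩ := hy'.exists_gt i
  obtain ⟨k, hk, hjk⟩ := hy'.exists_gt j
  have hij' : i ≠ j := hij.ne
  have hjk' : j ≠ k := hjk.ne
  have hik' : i ≠ k := (hij.trans hjk).ne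
  have key1 : ∀ l, F l = y → ∀ a : A, (g i a)⁻¹ * g l a ∈ M := by
    intro l hl a
    have h1 : F i a = F l a := by
      rw [hl]
      have : F i = y := hi
      rw [this]
    have h2 := QuotientGroup.eq.1 h1
    exact h2
  have comm : ∀ m n, m ≠ n → ∀ a b, Commute (g m a) (g n b) := by
    intro m n hmn a b
    apply atv_commute
    · exact fun w => not_prefix_aux hpq m n hmn w
    · exact fun w => not_prefix_aux hpq n m hmn.symm w
  have hmulg : ∀ n a b, g n (a * b) = g n a * g n b := by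
    intro n a b
    show atv (v n) (dir o (om A κ p q) (a * b, 1)) = _
    have : ((a * b, 1) : A × C) = (a, 1) * (b, 1) := by simp
    rw [this, map_mul, map_mul]
  let ρ : A →* Perm (List X) :=
    ((atv (v i)).comp (dir o (om A κ p q))).comp (MonoidHom.inl A C)
  have hρ : ∀ a, ρ a = g i a := fun a => rfl
  have hB : M.comap ρ = ⊤ := by
    rw [eq_top_iff, ← hperf, commutator_eq_closure, Subgroup.closure_le]
    rintro _ ⟨a, b, rfl⟩
    show ρ ⁅a, b⁆ ∈ M
    rw [map_commutatorElement, hρ, hρ]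
    have h1 := key1 j hj a⁻¹
    have h2 := key1 k hk b⁻¹
    have e1 : (g i a⁻¹)⁻¹ = g i a := by
      rw [← hρ, ← hρ, map_inv, inv_inv]
    have e2 : (g i b⁻¹)⁻¹ = g i b := by
      rw [← hρ, ← hρ, map_inv, inv_inv]
    rw [e1] at h1
    rw [e2] at h2
    have c1 : Commute (g j a⁻¹) (g i b) := comm j i hij'.symm _ _
    have c2 : Commute (g j a⁻¹) (g k b⁻¹) := comm j k hjk' _ _
    have c3 : Commute (g i a) (g k b⁻¹) := comm i k hik' _ _
    have c4 : Commute (g i a) (g j a⁻¹) := comm i j hij' _ _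
    have c5 : Commute (g i b) (g k b⁻¹) := comm i k hik' _ _
    have h3 : ⁅g i a * g j a⁻¹, g i b * g k b⁻¹⁆ = ⁅g i a, g i b⁆ := by
      have d1 : Commute (g j a⁻¹) (g i b * g k b⁻¹) := c1.mul_right c2
      have e3 : g i a * g j a⁻¹ * (g i b * g k b⁻¹) * (g i a * g j a⁻¹)⁻¹ =
          g i a * (g i b * g k b⁻¹) * (g i a)⁻¹ := by
        rw [mul_inv_rev, mul_assoc (g i a) (g j a⁻¹), d1.eq]
        group
      rw [commutatorElement_def, commutatorElement_def, e3, mul_inv_rev]
      have e4 : g i a * (g i b * g k b⁻¹) * (g i a)⁻¹ * ((g k b⁻¹)⁻¹ * (g i b)⁻¹) =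
          g i a * g i b * (g k b⁻¹ * (g i a)⁻¹ * (g k b⁻¹)⁻¹) * (g i b)⁻¹ := by group
      rw [e4]
      have e5 : g k b⁻¹ * (g i a)⁻¹ * (g k b⁻¹)⁻¹ = (g i a)⁻¹ := by
        have := c3.symm.inv_right
        rw [this.eq]; group
      rw [e5]
    rw [← h3, commutatorElement_def]
    exact M.mul_mem (M.mul_mem (M.mul_mem h1 h2) (M.inv_mem h1)) (M.inv_mem h2)
  apply GG_le_of_finitary φ hA htr hF
  rintro ⟨a, c⟩ _
  have h1 : ((a, c) : A × C) = (a, 1) * (1, c) := by simp
  rw [h1, map_mul]
  apply M.mul_mem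
  · apply dir_mem_of_atv_mem A κ p q hA φ htr hF (a, 1) _ (v i) rfl
    have : a ∈ M.comap ρ := by rw [hB]; exact Subgroup.mem_top _
    exact this
  · apply hM
    apply dir_mem_GG
    show (MonoidHom.fst A C) (1, c) = 1
    rfl

/-- a proper subgroup of a finitely generated group lies in a maximal one -/
theorem exists_covBy {V : Type} [Group V] {G K : Subgroup V} (hG : G.FG) (hK : K < G) :
    ∃ M, K ≤ M ∧ M ⋖ G := by
  obtain ⟨S, hS, hSfin⟩ := (Subgroup.fg_iff G).1 hG
  obtain ⟨M, hKM, hM⟩ := zorn_le_nonempty₀ {M : Subgroup V | M < G} (by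
    intro c hc hchain y hy
    refine ⟨sSup c, ?_, fun z hz => le_sSup hz⟩
    have hle : sSup c ≤ G := sSup_le fun z hz => (hc hz).le
    refine lt_of_le_of_ne hle ?_
    intro heq
    have hdir : DirectedOn (· ≤ ·) c := hchain.directedOn
    have hmem : ∀ s ∈ S, ∃ z ∈ c, s ∈ z := by
      intro s hs
      have : s ∈ sSup c := by
        rw [heq, ← hS]
        exact Subgroup.subset_closure hs
      exact (Subgroup.mem_sSup_of_directedOn ⟨y, hy⟩ hdir).1 this
    have hall : ∃ z ∈ c, S ⊆ z := by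
      clear hS
      induction S, hSfin using Set.Finite.induction_on with
      | empty => exact ⟨y, hy, Set.empty_subset _⟩
      | insert _ _ ih =>
        rename_i a S' _ _
        obtain ⟨z, hz, hz'⟩ := ih (fun s hs => hmem s (Set.mem_insert_of_mem _ hs))
        obtain ⟨z2, hz2, hz2'⟩ := hmem a (Set.mem_insert _ _)
        obtain ⟨z3, hz3, h1, h2⟩ := hdir z hz z2 hz2
        refine ⟨z3, hz3, ?_⟩
        intro b hb
        rcases hb with rfl | hb
        · exact h2 hz2'
        · exact h1 (hz' hb)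
    obtain ⟨z, hz, hSz⟩ := hall
    have : G ≤ z := by rw [← hS, Subgroup.closure_le]; exact hSz
    exact absurd (hc hz) (not_lt_of_ge this)) K hK
  refine ⟨M, hKM, hM.prop, ?_⟩
  intro N hMN hN
  exact absurd (hM.le_of_ge hN hMN.le) (not_le_of_gt hMN)

end

end Pool.Agent.Lib.MP_9e467c_al
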