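import Pool.Agent.Lib.MP_9e467c_al.Node

set_option autoImplicit false

namespace Pool.Agent.Lib.MP_9e467c_al

open Equiv Subgroup

section directed

variable {X D : Type} [DecidableEq X] [Group D] (o : X) (ω : X → D →* Perm X)

/-- the underlying function of a directed automorphism -/
def dirFun (d : D) : List X → List X
  | [] => []
  | x :: w => if x = o then x :: dirFun d w else x :: rooted (ω x d) w

@[simp] theorem dirFun_nil (d : D) : dirFun o ω d [] = [] := rfl

theorem dirFun_cons (d : D) (x : X) (w : List X) :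
    dirFun o ω d (x :: w) = if x = o then x :: dirFun o ω d w else x :: rooted (ω x d) w := rfl

theorem dirFun_one (w : List X) : dirFun o ω 1 w = w := by
  induction w with
  | nil => rfl
  | cons x w ih =>
    rw [dirFun_cons]
    split_ifs with h
    · rw [ih]
    · simp

theorem dirFun_mul (d e : D) (w : List X) :
    dirFun o ω (d * e) w = dirFun o ω d (dirFun o ω e w) := by
  induction w with
  | nil => rfl
  | cons x w ih =>
    rw [dirFun_cons, dirFun_cons]
    split_ifs with h
    · rw [dirFun_cons, if_pos h, ih]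
    · rw [dirFun_cons, if_neg h]; simp

/-- directed automorphisms `dir d = (dir d at o; rooted (ω x d) at x ≠ o)` -/
def dir : D →* Perm (List X) where
  toFun d :=
    { toFun := dirFun o ω d
      invFun := dirFun o ω d⁻¹
      left_inv := fun w => by rw [← dirFun_mul, inv_mul_cancel, dirFun_one]
      right_inv := fun w => by rw [← dirFun_mul, mul_inv_cancel, dirFun_one] }
  map_one' := by ext1 w; exact dirFun_one o ω w
  map_mul' d e := by ext1 w; exact dirFun_mul o ω d e w

@[simp] theorem dir_nil (d : D) : dir o ω d [] = [] := rfl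

theorem dir_cons (d : D) (x : X) (w : List X) :
    dir o ω d (x :: w) = if x = o then x :: dir o ω d w else x :: rooted (ω x d) w := rfl

/-- the first level sections of a directed automorphism -/
def dirSec (d : D) : X → Perm (List X) := fun x => if x = o then dir o ω d else rooted (ω x d)

@[simp] theorem dirSec_self (d : D) : dirSec o ω d o = dir o ω d := by simp [dirSec]

theorem dirSec_ne (d : D) {x : X} (h : x ≠ o) : dirSec o ω d x = rooted (ω x d) := by
  simp [dirSec, h]

theorem dir_eq (d : D) : dir o ω d = node 1 (dirSec o ω d) := by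
  ext1 w
  rcases w with _ | ⟨x, w⟩
  · rfl
  · rw [dir_cons, node_cons, dirSec]
    split_ifs with h <;> rfl

theorem rooted_injective : Function.Injective (rooted : Perm X →* Perm (List X)) := by
  intro σ τ h
  exact (node_injective h).1

/-- faithfulness of the directed part -/
theorem dir_injective (hω : ∀ d, (∀ x, x ≠ o → ω x d = 1) → d = 1) :
    Function.Injective (dir o ω) := by
  rw [injective_iff_map_eq_one]
  intro d hd
  apply hω
  intro x hx
  rw [dir_eq, ← node_one] at hd
  have h1 := (node_injective hd).2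
  have h2 := congrFun h1 x
  rw [dirSec_ne o ω d hx] at h2
  apply rooted_injective
  rw [h2, map_one]
  rfl

theorem dir_eq_rooted {d : D} {σ : Perm X} (h : dir o ω d = rooted σ) :
    σ = 1 ∧ dir o ω d = 1 := by
  rw [dir_eq, rooted_eq] at h
  have h1 := node_injective h
  refine ⟨h1.1.symm, ?_⟩
  have h2 := congrFun h1.2 o
  rw [dirSec_self] at h2
  exact h2

variable {C : Type} [Fintype X] [CommGroup C] (A : Subgroup (Perm X)) (φ : D →* C)
  (S : Subgroup D)

/-- `E c g`: `g` lies in the group generated by rooted and directed pieces and has exponent `c`. -/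
inductive E : C → Perm (List X) → Prop
  | root (a : Perm X) (ha : a ∈ A) : E 1 (rooted a)
  | dir (d : D) (hd : d ∈ S) : E (φ d) (dir o ω d)
  | node (σ : Perm X) (hσ : σ ∈ A) (c : X → C) (f : X → Perm (List X))
      (h : ∀ x, E (c x) (f x)) : E (∏ x, c x) (node σ f)

variable {o ω A φ S}

theorem E.one : E o ω A φ S 1 1 := by
  have := E.root (o := o) (ω := ω) (φ := φ) (S := S) (1 : Perm X) A.one_mem
  rwa [map_one] at this

theorem E.dirSec (hA : ∀ d ∈ S, ∀ x, x ≠ o → ω x d ∈ A) {d : D} (hd : d ∈ S) (x : X) :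
    E o ω A φ S (if x = o then φ d else 1) (dirSec o ω d x) := by
  by_cases hx : x = o
  · subst hx
    rw [if_pos rfl, dirSec_self]
    exact E.dir d hd
  · rw [if_neg hx, dirSec_ne o ω d hx]
    exact E.root _ (hA d hd x hx)

theorem E.unfold (hA : ∀ d ∈ S, ∀ x, x ≠ o → ω x d ∈ A) {c : C} {g : Perm (List X)}
    (h : E o ω A φ S c g) :
    ∃ σ ∈ A, ∃ (c' : X → C) (f : X → Perm (List X)),
      (∀ x, E o ω A φ S (c' x) (f x)) ∧ c = ∏ x, c' x ∧ g = MP_9e467c_al.node σ f := by
  cases h with
  | root a ha =>
    exact ⟨a, ha, fun _ => 1, fun _ => 1, fun _ => E.one, by simp, rfl⟩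
  | dir d hd =>
    refine ⟨1, A.one_mem, fun x => if x = o then φ d else 1, MP_9e467c_al.dirSec o ω d,
      fun x => E.dirSec hA hd x, by simp, dir_eq o ω d⟩
  | node σ hσ c' f h => exact ⟨σ, hσ, c', f, h, rfl, rfl⟩

theorem E.inv {c : C} {g : Perm (List X)} (h : E o ω A φ S c g) : E o ω A φ S c⁻¹ g⁻¹ := by
  induction h with
  | root a ha =>
    rw [inv_one, ← map_inv]
    exact E.root _ (A.inv_mem ha)
  | dir d hd =>
    rw [← map_inv, ← map_inv]
    exact E.dir _ (S.inv_mem hd)
  | node σ hσ c f h ih =>
    rw [node_inv]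
    have h2 := E.node (o := o) (ω := ω) (φ := φ) (S := S) σ⁻¹ (A.inv_mem hσ)
      (fun x => (c (σ⁻¹ x))⁻¹) (fun x => (f (σ⁻¹ x))⁻¹) (fun x => ih _)
    have h3 : ∏ x, (c (σ⁻¹ x))⁻¹ = (∏ x, c x)⁻¹ := by
      rw [← Finset.prod_inv_distrib]
      exact Equiv.prod_comp σ⁻¹ (fun x => (c x)⁻¹)
    rwa [h3] at h2

theorem E.rooted_mul (hA : ∀ d ∈ S, ∀ x, x ≠ o → ω x d ∈ A) {a : Perm X} (ha : a ∈ A)
    {c : C} {g : Perm (List X)} (h : E o ω A φ S c g) : E o ω A φ S c (rooted a * g) := by
  obtain ⟨σ, hσ, c', f, hf, rfl, rfl⟩ := h.unfold hA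
  rw [rooted_eq, node_mul]
  exact E.node _ (A.mul_mem ha hσ) c' _ (fun x => by simpa using hf x)

theorem E.dir_mul (hA : ∀ d ∈ S, ∀ x, x ≠ o → ω x d ∈ A) {d : D} (hd : d ∈ S)
    {c : C} {g : Perm (List X)} (h : E o ω A φ S c g) :
    E o ω A φ S (φ d * c) (MP_9e467c_al.dir o ω d * g) := by
  induction h with
  | root a ha =>
    rw [dir_eq, rooted_eq, node_mul, mul_one]
    have h2 := E.node (o := o) (ω := ω) (φ := φ) (S := S) (1 * a) (A.mul_mem A.one_mem ha)
      (fun x => if a x = o then φ d else 1)
      (fun x => MP_9e467c_al.dirSec o ω d (a x) * 1)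
      (fun x => by rw [mul_one]; exact E.dirSec hA hd (a x))
    have h3 : ∏ x, (if a x = o then φ d else 1) = φ d := by
      rw [Equiv.prod_comp a (fun x => if x = o then φ d else 1)]; simp
    rwa [h3] at h2
  | dir e he =>
    rw [← map_mul, ← map_mul]
    exact E.dir _ (S.mul_mem hd he)
  | node σ hσ c f h ih =>
    rw [dir_eq, node_mul]
    have h2 := E.node (o := o) (ω := ω) (φ := φ) (S := S) (1 * σ) (A.mul_mem A.one_mem hσ)
      (fun x => (if σ x = o then φ d else 1) * c x)
      (fun x => MP_9e467c_al.dirSec o ω d (σ x) * f x)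
      (fun x => by
        by_cases hx : σ x = o
        · rw [hx, if_pos rfl, dirSec_self]
          exact ih x
        · rw [if_neg hx, dirSec_ne o ω d hx, one_mul]
          exact E.rooted_mul hA (hA d hd _ hx) (h x))
    have h3 : ∏ x, (if σ x = o then φ d else 1) * c x = φ d * ∏ x, c x := by
      rw [Finset.prod_mul_distrib, Equiv.prod_comp σ (fun x => if x = o then φ d else 1)]; simp
    rwa [h3] at h2

theorem E.mul (hA : ∀ d ∈ S, ∀ x, x ≠ o → ω x d ∈ A) {c : C} {g : Perm (List X)}
    (h : E o ω A φ S c g) :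
    ∀ {c' : C} {g' : Perm (List X)}, E o ω A φ S c' g' → E o ω A φ S (c * c') (g * g') := by
  induction h with
  | root a ha =>
    intro c' g' h'
    rw [one_mul]
    exact E.rooted_mul hA ha h'
  | dir d hd =>
    intro c' g' h'
    exact E.dir_mul hA hd h'
  | node σ hσ c f h ih =>
    intro c' g' h'
    obtain ⟨τ, hτ, c'', f', hf, rfl, rfl⟩ := h'.unfold hA
    rw [node_mul]
    have h2 := E.node (o := o) (ω := ω) (φ := φ) (S := S) (σ * τ) (A.mul_mem hσ hτ)
      (fun x => c (τ x) * c'' x) (fun x => f (τ x) * f' x) (fun x => ih _ (hf x))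
    have h3 : ∏ x, c (τ x) * c'' x = (∏ x, c x) * ∏ x, c'' x := by
      rw [Finset.prod_mul_distrib, Equiv.prod_comp τ c]
    rwa [h3] at h2

/-- uniqueness of the exponent, first for rooted elements -/
theorem E.rooted_unique (hφ : Function.Injective (MP_9e467c_al.dir o ω)) {c : C}
    {g : Perm (List X)} (h : E o ω A φ S c g) : ∀ a, g = rooted a → c = 1 := by
  induction h with
  | root a ha => intro b _; rfl
  | dir d hd =>
    intro b hb
    have h1 := (dir_eq_rooted o ω hb).2
    have h2 : d = 1 := hφ (by rw [h1, map_one])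
    rw [h2, map_one]
  | node σ hσ c f h ih =>
    intro b hb
    rw [rooted_eq] at hb
    have h1 := (node_injective hb).2
    apply Finset.prod_eq_one
    intro x _
    apply ih x 1
    rw [h1, map_one]

theorem E.dir_unique (hφ : Function.Injective (MP_9e467c_al.dir o ω)) {c : C}
    {g : Perm (List X)} (h : E o ω A φ S c g) :
    ∀ d, g = MP_9e467c_al.dir o ω d → c = φ d ∧ d ∈ S := by
  induction h with
  | root a ha =>
    intro d hd
    have h1 := (dir_eq_rooted o ω hd.symm).2
    have h2 : d = 1 := hφ (by rw [h1, map_one])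
    rw [h2, map_one]
    exact ⟨rfl, S.one_mem⟩
  | dir e he =>
    intro d hd
    rw [hφ hd] at he ⊢
    exact ⟨rfl, he⟩
  | node σ hσ c f h ih =>
    intro d hd
    rw [dir_eq] at hd
    have h1 := (node_injective hd).2
    have h2 : f o = MP_9e467c_al.dir o ω d := by rw [h1, dirSec_self]
    have h3 := ih o d h2
    refine ⟨?_, h3.2⟩
    rw [Finset.prod_eq_single o, h3.1]
    · intro x _ hx
      apply E.rooted_unique hφ (h x) (ω x d)
      rw [h1, dirSec_ne o ω d hx]
    · intro hx; exact absurd (Finset.mem_univ _) hx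

theorem E.unique (hφ : Function.Injective (MP_9e467c_al.dir o ω)) {c : C}
    {g : Perm (List X)} (h : E o ω A φ S c g) : ∀ c', E o ω A φ S c' g → c = c' := by
  induction h with
  | root a ha =>
    intro c' h'
    exact (E.rooted_unique hφ h' a rfl).symm
  | dir d hd =>
    intro c' h'
    exact (E.dir_unique hφ h' d rfl).1.symm
  | node σ hσ c f h ih =>
    intro c' h'
    generalize hg : MP_9e467c_al.node σ f = g at h'
    cases h' with
    | root a ha =>
      rw [rooted_eq] at hg
      have h1 := (node_injective hg).2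
      apply Finset.prod_eq_one
      intro x _
      apply ih x
      rw [h1]
      exact E.one
    | dir d hd =>
      rw [dir_eq] at hg
      have h1 := (node_injective hg).2
      rw [Finset.prod_eq_single o]
      · apply ih o
        rw [h1, dirSec_self]
        exact E.dir d hd
      · intro x _ hx
        apply E.rooted_unique hφ (h x) (ω x d)
        rw [h1, dirSec_ne o ω d hx]
      · intro hx; exact absurd (Finset.mem_univ _) hx
    | node σ' hσ' c' f' h'' =>
      have h1 := (node_injective hg).2
      apply Finset.prod_congr rfl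
      intro x _
      apply ih x
      rw [h1]
      exact h'' x

theorem E.mono {S' : Subgroup D} (hS : S ≤ S') {c : C} {g : Perm (List X)}
    (h : E o ω A φ S c g) : E o ω A φ S' c g := by
  induction h with
  | root a ha => exact E.root a ha
  | dir d hd => exact E.dir d (hS hd)
  | node σ hσ c f _ ih => exact E.node σ hσ c f ih

end directed

end Pool.Agent.Lib.MP_9e467c_al
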