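import Pool.Agent.Lib.MP_9e467c_al.Key

set_option autoImplicit false
set_option linter.unusedSectionVars false

namespace Pool.Agent.Lib.MP_9e467c_al

open Equiv Subgroup
open scoped commutatorElement

section

variable {X C : Type} [Fintype X] [DecidableEq X] [CommGroup C]
  (A : Subgroup (Perm X)) (κ : C →* Perm X) (p q : X)

/-- sections of the directed automorphisms: the first coordinate at `p`, the second at `q` -/
def om : X → (A × C →* Perm X) := fun x =>
  if x = p then A.subtype.comp (MonoidHom.fst A C)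
  else if x = q then κ.comp (MonoidHom.snd A C) else 1

theorem om_p (d : A × C) : om A κ p q p d = (d.1 : Perm X) := by
  simp [om]

theorem om_q (hpq : p ≠ q) (d : A × C) : om A κ p q q d = κ d.2 := by
  simp [om, hpq.symm]

theorem om_ne {x : X} (hp : x ≠ p) (hq : x ≠ q) (d : A × C) : om A κ p q x d = 1 := by
  simp [om, hp, hq]

theorem om_mem (hκ : ∀ c, κ c ∈ A) (d : A × C) (x : X) : om A κ p q x d ∈ A := by
  by_cases hp : x = p
  · subst hp; rw [om_p]; exact d.1.2
  · by_cases hq : x = q
    · subst hq; rw [om_q A κ p x (Ne.symm hp)]; exact hκ _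
    · rw [om_ne A κ p q hp hq]; exact A.one_mem

theorem om_inj {o : X} (hop : p ≠ o) (hoq : q ≠ o) (hpq : p ≠ q) (hκ : Function.Injective κ) :
    Function.Injective (dir o (om A κ p q)) := by
  apply dir_injective
  intro d h
  have h1 := h p hop
  have h2 := h q hoq
  rw [om_p] at h1
  rw [om_q A κ p q hpq] at h2
  apply Prod.ext
  · exact Subtype.ext h1
  · apply hκ
    rw [h2]
    exact (map_one κ).symm

variable {o : X} (hA : ∀ (d : A × C) (x : X), x ≠ o → om A κ p q x d ∈ A)

/-- the abbreviation for the directed automorphism with label in `A` -/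
theorem dir_fst_eq (hop : p ≠ o) (hoq : q ≠ o) (hpq : p ≠ q) (a : A) :
    dir o (om A κ p q) (a, 1) =
      at' o (dir o (om A κ p q) (a, 1)) * at' p (rooted (a : Perm X)) := by
  have h3 : dir o (om A κ p q) (a, 1) = Phi (dirSec o (om A κ p q) (a, 1)) :=
    dir_eq o (om A κ p q) (a, 1)
  rw [at'_eq, at'_eq, ← map_mul]
  conv_lhs => rw [h3]
  congr 1
  funext x
  by_cases hx : x = o
  · subst hx
    simp [hop.symm]
  · rw [dirSec_ne _ _ _ hx]
    by_cases hxp : x = p
    · subst hxp
      simp [hx, om_p]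
    · by_cases hxq : x = q
      · subst hxq
        rw [om_q A κ p x hpq]
        simp [hx, hxp]
      · rw [om_ne A κ p q hxp hxq]
        simp [hx, hxp]

theorem Phi_commutator (f g : X → Perm (List X)) : ⁅Phi f, Phi g⁆ = Phi ⁅f, g⁆ := by
  rw [map_commutatorElement]

/-- the commutator trick -/
theorem commutator_trick (hop : p ≠ o) (hoq : q ≠ o) (hpq : p ≠ q)
    {s : Perm X} (hso : s o = o) (hsp : s p ≠ p) (a b : A) :
    ⁅dir o (om A κ p q) (a, 1), rooted s * dir o (om A κ p q) (b, 1) * (rooted s)⁻¹⁆ =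
      at' o (dir o (om A κ p q) (⁅a, b⁆, 1)) := by
  have hspo : s p ≠ o := by
    intro h
    apply hop
    apply s.injective
    rw [h, hso]
  have e1 : ∀ c : A, dir o (om A κ p q) (c, 1) =
      Phi (Pi.mulSingle o (dir o (om A κ p q) (c, 1)) * Pi.mulSingle p (rooted (c : Perm X))) := by
    intro c
    rw [map_mul]
    exact dir_fst_eq A κ p q hop hoq hpq c
  have e2 : rooted s * dir o (om A κ p q) (b, 1) * (rooted s)⁻¹ =
      Phi (Pi.mulSingle o (dir o (om A κ p q) (b, 1)) *
        Pi.mulSingle (s p) (rooted (b : Perm X))) := by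
    conv_lhs => rw [dir_fst_eq A κ p q hop hoq hpq b]
    have : rooted s * (at' o (dir o (om A κ p q) (b, 1)) * at' p (rooted (b : Perm X))) *
        (rooted s)⁻¹ = (rooted s * at' o (dir o (om A κ p q) (b, 1)) * (rooted s)⁻¹) *
          (rooted s * at' p (rooted (b : Perm X)) * (rooted s)⁻¹) := by group
    rw [this, rooted_conj_at', rooted_conj_at', hso, map_mul]
    rfl
  rw [e1 a, e2, Phi_commutator, at'_eq]
  congr 1
  have hab : dir o (om A κ p q) (⁅a, b⁆, 1) =
      ⁅dir o (om A κ p q) (a, 1), dir o (om A κ p q) (b, 1)⁆ := by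
    rw [← map_commutatorElement]
    congr 1
    ext1
    · simp [commutatorElement_def]
    · simp [commutatorElement_def]
  rw [hab]
  funext x
  by_cases hx : x = o
  · subst hx
    simp [commutatorElement_def, hop.symm, hspo.symm]
  · by_cases hxp : x = p
    · subst hxp
      simp [commutatorElement_def, hx, hsp.symm]
    · by_cases hxs : x = s p
      · subst hxs
        simp [commutatorElement_def, hx, hsp]
      · simp [commutatorElement_def, hx, hxp, hxs]

theorem GG_fg [Finite C] (hperf : commutator A = ⊤) (htr : ∀ x y : X, ∃ a ∈ A, a x = y)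
    (hop : p ≠ o) (hoq : q ≠ o) (hpq : p ≠ q) (hκ : ∀ c, κ c ∈ A)
    {s : Perm X} (hsA : s ∈ A) (hso : s o = o) (hsp : s p ≠ p)
    {S : Subgroup (A × C)} (hS : ∀ a : A, (a, 1) ∈ S) :
    (GG (MonoidHom.snd A C) hA S).FG := by
  rw [Subgroup.fg_iff]
  refine ⟨(rooted '' (A : Set (Perm X))) ∪ (dir o (om A κ p q) '' (S : Set (A × C))), ?_, ?_⟩
  · set Γ := Subgroup.closure ((rooted '' (A : Set (Perm X))) ∪
      (dir o (om A κ p q) '' (S : Set (A × C)))) with hΓ
    have hroot : ∀ a ∈ A, rooted a ∈ Γ := fun a ha =>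
      Subgroup.subset_closure (Or.inl ⟨a, ha, rfl⟩)
    have hdir : ∀ d ∈ S, dir o (om A κ p q) d ∈ Γ := fun d hd =>
      Subgroup.subset_closure (Or.inr ⟨d, hd, rfl⟩)
    apply le_antisymm
    · rw [Subgroup.closure_le]
      rintro _ (⟨a, ha, rfl⟩ | ⟨d, hd, rfl⟩)
      · exact (isWr_GG _ hA S).rooted_mem ha
      · exact dir_mem_GG _ hA hd
    · apply GG_le _ hA hroot hdir
      -- step 1
      have s1 : ∀ a : A, at' o (dir o (om A κ p q) (a, 1)) ∈ Γ := by
        let B : Subgroup A := Γ.comap (((at' o).comp (dir o (om A κ p q))).comp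
          (MonoidHom.inl A C))
        have hB : B = ⊤ := by
          rw [eq_top_iff, ← hperf, commutator_eq_closure, Subgroup.closure_le]
          rintro _ ⟨a, b, rfl⟩
          show at' o (dir o (om A κ p q) (⁅a, b⁆, 1)) ∈ Γ
          rw [← commutator_trick A κ p q hop hoq hpq hso hsp, commutatorElement_def]
          have h1 := hdir _ (hS a)
          have h2 : rooted s * dir o (om A κ p q) (b, 1) * (rooted s)⁻¹ ∈ Γ :=
            Γ.mul_mem (Γ.mul_mem (hroot s hsA) (hdir _ (hS b))) (Γ.inv_mem (hroot s hsA))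
          exact Γ.mul_mem (Γ.mul_mem (Γ.mul_mem h1 h2) (Γ.inv_mem h1)) (Γ.inv_mem h2)
        intro a
        have : a ∈ B := by rw [hB]; exact Subgroup.mem_top _
        exact this
      -- step 2
      have s2 : ∀ a ∈ A, at' p (rooted a) ∈ Γ := by
        intro a ha
        have h1 := dir_fst_eq A κ p q hop hoq hpq ⟨a, ha⟩
        have h2 : at' p (rooted a) = (at' o (dir o (om A κ p q) (⟨a, ha⟩, 1)))⁻¹ *
            dir o (om A κ p q) (⟨a, ha⟩, 1) := by
          rw [eq_inv_mul_iff_mul_eq]
          exact h1.symm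
        rw [h2]
        exact Γ.mul_mem (Γ.inv_mem (s1 _)) (hdir _ (hS _))
      -- step 3
      have s3 : ∀ x, ∀ a ∈ A, at' x (rooted a) ∈ Γ := by
        intro x a ha
        obtain ⟨t, ht, htx⟩ := htr p x
        have h1 := Γ.mul_mem (Γ.mul_mem (hroot t ht) (s2 a ha)) (Γ.inv_mem (hroot t ht))
        rwa [rooted_conj_at', htx] at h1
      -- step 4
      have s4 : ∀ x, ∀ d ∈ S, at' x (dir o (om A κ p q) d) ∈ Γ := by
        intro x d hd
        obtain ⟨t, ht, htx⟩ := htr o x
        have h0 : at' o (dir o (om A κ p q) d) ∈ Γ :=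
          at'_dir_mem (hdir d hd) (fun y _ => s3 y _ (om_mem A κ p q hκ d y))
        have h1 := Γ.mul_mem (Γ.mul_mem (hroot t ht) h0) (Γ.inv_mem (hroot t ht))
        rwa [rooted_conj_at', htx] at h1
      intro x
      have : Γ ≤ Γ.comap (at' x) := by
        rw [hΓ, Subgroup.closure_le, ← hΓ]
        rintro _ (⟨a, ha, rfl⟩ | ⟨d, hd, rfl⟩)
        · exact s3 x a ha
        · exact s4 x d hd
      exact this
  · apply Set.Finite.union
    · exact (Set.toFinite (A : Set (Perm X))).image _
    · exact (Set.toFinite (S : Set (A × C))).image _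

end

end Pool.Agent.Lib.MP_9e467c_al
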