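import Pool.Agent.Lib.MP_9e467c_al.Dense

set_option autoImplicit false
set_option linter.unusedSectionVars false

namespace Pool.Agent.Lib.MP_9e467c_al

open Equiv Subgroup
open scoped commutatorElement

section

variable {X C : Type} [Fintype X] [DecidableEq X] [CommGroup C] [Finite C]
  (A : Subgroup (Perm X)) (κ : C →* Perm X) {o p q : X}

theorem main_aux (hperf : commutator A = ⊤) (hA1 : ∃ a ∈ A, a ≠ 1)
    (htr : ∀ x y : X, ∃ a ∈ A, a x = y)
    (hop : p ≠ o) (hoq : q ≠ o) (hpq : p ≠ q) (hκ : ∀ c, κ c ∈ A)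
    (hκi : Function.Injective κ)
    {ℓ : ℕ} [Fact ℓ.Prime] (hC : Nat.card C = ℓ)
    {s : Perm X} (hsA : s ∈ A) (hso : s o = o) (hsp : s p ≠ p) :
    ∃ G H : Subgroup (Equiv.Perm (List X)),
      G.FG ∧ IsBranch G ∧
      (∃ M, M ⋖ G ∧ M.relIndex G = 0) ∧
      H ≤ G ∧ H.FG ∧ IsBranch H ∧ H.relIndex G = 0 ∧
      ∀ M, M ⋖ G → H ≤ M → M.relIndex G ≠ 0 := by
  have hA : ∀ (d : A × C) (x : X), x ≠ o → om A κ p q x d ∈ A :=
    fun d x _ => om_mem A κ p q hκ d x
  have hinj : Function.Injective (dir o (om A κ p q)) := om_inj A κ p q hop hoq hpq hκi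
  let φ : A × C →* C := MonoidHom.snd A C
  let G := GG φ hA (⊤ : Subgroup (A × C))
  let H := GG φ hA φ.ker
  have hGW : IsWr A G := isWr_GG φ hA _
  have hHW : IsWr A H := isWr_GG φ hA _
  have hHG : H ≤ G := GG_mono φ hA le_top
  have hGfg : G.FG := GG_fg A κ p q hA hperf htr hop hoq hpq hκ hsA hso hsp
    (fun a => Subgroup.mem_top _)
  have hHfg : H.FG := GG_fg A κ p q hA hperf htr hop hoq hpq hκ hsA hso hsp
    (fun a => rfl)
  have : Nontrivial C := by
    rw [← Finite.one_lt_card_iff_nontrivial, hC]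
    exact (Fact.out : ℓ.Prime).one_lt
  obtain ⟨c₀, hc₀⟩ := exists_ne (1 : C)
  refine ⟨G, H, hGfg, hGW.isBranch htr, ?_, hHG, hHfg, hHW.isBranch htr, ?_, ?_⟩
  · -- a maximal subgroup of infinite index
    obtain ⟨a, ha, ha1⟩ := hA1
    let K := GG φ hA (MonoidHom.fst A C).ker
    have hKG : K < G := by
      refine lt_of_le_of_ne (GG_mono φ hA le_top) ?_
      intro heq
      have h1 : dir o (om A κ p q) (⟨a, ha⟩, 1) ∈ K := by
        rw [heq]; exact dir_mem_GG φ hA (Subgroup.mem_top _)
      have h2 := mem_of_dir_mem_GG φ hA hinj h1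
      have h3 : (⟨a, ha⟩ : A) = 1 := h2
      exact ha1 (congrArg Subtype.val h3)
    obtain ⟨M, hKM, hMG⟩ := exists_covBy hGfg hKG
    refine ⟨M, hMG, ?_⟩
    by_contra hne
    have := dense_part A κ p q hA φ hperf htr hpq hKM hne
    exact absurd hMG.lt (not_lt_of_ge this)
  · -- infinite index of `H`
    apply relIndex_GG_eq_zero φ hA hinj hpq (d := (1, c₀)) (Subgroup.mem_top _)
    exact hc₀
  · intro M hMG hHM
    by_cases hex : ∃ m ∈ M, ∃ c : C, c ≠ 1 ∧ E o (om A κ p q) A φ ⊤ c m
    · obtain ⟨m, hm, c, hc, hmc⟩ := hex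
      exact key φ hA hC htr le_top (fun d _ hd => hd) hHM hm hmc hc
    · -- `M` is the kernel of the exponent homomorphism
      have hE : ∀ g : G, ∃ c : C, E o (om A κ p q) A φ ⊤ c (g : Perm (List X)) := fun g => g.2
      choose e he using hE
      have huniq : ∀ {c c' : C} {g : Perm (List X)}, E o (om A κ p q) A φ ⊤ c g →
          E o (om A κ p q) A φ ⊤ c' g → c = c' := fun h h' => E.unique hinj h _ h'
      let ε : G →* C :=
        { toFun := e
          map_one' := huniq (he 1) E.one
          map_mul' := fun g h => huniq (he (g * h))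
            ((he g).mul (fun d _ x hx => hA d x hx) (he h)) }
      let N : Subgroup (Perm (List X)) := ε.ker.map G.subtype
      have hMN : M ≤ N := by
        intro m hm
        have hmG : m ∈ G := hMG.le hm
        refine ⟨⟨m, hmG⟩, ?_, rfl⟩
        show e ⟨m, hmG⟩ = 1
        by_contra hne
        exact hex ⟨m, hm, _, hne, he ⟨m, hmG⟩⟩
      have hNG : N < G := by
        refine lt_of_le_of_ne ?_ ?_
        · rintro _ ⟨g, _, rfl⟩
          exact g.2
        · intro heq
          have h1 : dir o (om A κ p q) (1, c₀) ∈ G := dir_mem_GG φ hA (Subgroup.mem_top _)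
          have h2 : dir o (om A κ p q) (1, c₀) ∈ N := by rw [heq]; exact h1
          obtain ⟨g, hg, hg'⟩ := h2
          have h3 : E o (om A κ p q) A φ ⊤ (e g) (dir o (om A κ p q) (1, c₀)) := by
            have := he g
            have h4 : (g : Perm (List X)) = dir o (om A κ p q) (1, c₀) := hg'
            rwa [h4] at this
          have h5 : e g = 1 := hg
          rw [h5] at h3
          have h6 := (E.dir_unique hinj h3 (1, c₀) rfl).1
          exact hc₀ h6.symm
      have hMN' : M = N := by
        rcases hMN.lt_or_eq with h | h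
        · exact absurd hNG (hMG.2 h)
        · exact h
      rw [hMN', Subgroup.relIndex]
      have h7 : N.subgroupOf G = ε.ker := by
        ext g
        constructor
        · rintro ⟨g', hg', h⟩
          have : g' = g := Subtype.ext h
          rwa [this] at hg'
        · intro hg
          exact ⟨g, hg, rfl⟩
      rw [h7, Subgroup.index_ker]
      exact Nat.card_pos.ne'

end

end Pool.Agent.Lib.MP_9e467c_al
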