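import Pool.Agent.Lib.MP_9e467c_al.Main

set_option autoImplicit false
set_option linter.unusedSectionVars false

namespace Pool.Agent.Lib.MP_9e467c_al

open Equiv Subgroup

section

variable {X D C : Type} [Fintype X] [DecidableEq X] [Group D] [CommGroup C]
  {o : X} {ω : X → D →* Perm X} {A : Subgroup (Perm X)} (φ : D →* C)
  (hA : ∀ (d : D) (x : X), x ≠ o → ω x d ∈ A)

/-- a subgroup containing `GG S₀` and normalised by `GG S` has finite index in `GG S` -/
theorem relIndex_of_normalised [Finite D] (htr : ∀ x y : X, ∃ a ∈ A, a x = y)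
    {S₀ S : Subgroup D} (hS : S₀ ≤ S) {R : Subgroup (Perm (List X))}
    (hHR : GG φ hA S₀ ≤ R) (hnorm : ∀ g ∈ GG φ hA S, ∀ r ∈ R, g * r * g⁻¹ ∈ R)
    {d : D} (hd : d ∈ S) (hgen : ∀ e ∈ S, ∃ k : ℤ, e * d ^ k ∈ S₀) :
    R.relIndex (GG φ hA S) ≠ 0 := by
  set G := GG φ hA S with hG
  let N : Subgroup G := R.subgroupOf G
  have hN : N.Normal := by
    constructor
    intro n hn g
    exact hnorm g g.2 n hn
  let t : G := ⟨dir o ω d, dir_mem_GG φ hA hd⟩
  let T : Subgroup G := Subgroup.zpowers t
  have hT : Finite T := by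
    have h1 : IsOfFinOrder d := isOfFinOrder_of_finite d
    have h2 : IsOfFinOrder t := by
      rw [isOfFinOrder_iff_pow_eq_one] at h1 ⊢
      obtain ⟨n, hn, hn'⟩ := h1
      refine ⟨n, hn, ?_⟩
      ext1
      rw [Subgroup.coe_pow, Subgroup.coe_one]
      show (dir o ω d) ^ n = 1
      rw [← map_pow, hn', map_one]
    exact h2.finite_zpowers
  have htop : T ⊔ N = ⊤ := by
    have h1 : G ≤ (T ⊔ N).map G.subtype := by
      apply GG_le_of_finitary φ hA htr
      · intro g hg
        have hg1 : g ∈ GG φ hA S₀ := GG_mono φ hA bot_le hg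
        have hg2 : g ∈ G := GG_mono φ hA hS hg1
        refine ⟨⟨g, hg2⟩, ?_, rfl⟩
        apply Subgroup.mem_sup_right
        exact hHR hg1
      · intro e he
        obtain ⟨k, hk⟩ := hgen e he
        refine ⟨⟨dir o ω e, dir_mem_GG φ hA he⟩, ?_, rfl⟩
        have h2 : (⟨dir o ω e, dir_mem_GG φ hA he⟩ : G) =
            ⟨dir o ω (e * d ^ k), GG_mono φ hA hS (dir_mem_GG φ hA hk)⟩ * t ^ (-k) := by
          ext1
          rw [Subgroup.coe_mul, Subgroup.coe_zpow]
          show dir o ω e = dir o ω (e * d ^ k) * (dir o ω d) ^ (-k)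
          rw [← map_zpow, ← map_mul]
          simp
        rw [h2]
        apply Subgroup.mul_mem
        · apply Subgroup.mem_sup_right
          exact hHR (dir_mem_GG φ hA hk)
        · apply Subgroup.mem_sup_left
          exact Subgroup.zpow_mem _ (Subgroup.mem_zpowers t) _
    rw [eq_top_iff]
    intro g _
    obtain ⟨g', hg', h2⟩ := h1 g.2
    have h3 : g' = g := Subtype.ext h2
    rwa [h3] at hg'
  have h4 : N.index = N.relIndex T := by
    rw [← Subgroup.relIndex_top_right, ← htop, Subgroup.relIndex_sup_right]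
  have h5 : N.relIndex T ≠ 0 := Subgroup.index_ne_zero_of_finite
  rw [← h4] at h5
  exact h5

/-- The key theorem: an overgroup of `GG S₀` with an element of non trivial exponent has
finite index. -/
theorem key [Finite D] {p : ℕ} [Fact p.Prime] (hC : Nat.card C = p)
    (htr : ∀ x y : X, ∃ a ∈ A, a x = y)
    {S₀ S : Subgroup D} (hS : S₀ ≤ S) (hker : ∀ d ∈ S, φ d = 1 → d ∈ S₀)
    {M : Subgroup (Perm (List X))} (hHM : GG φ hA S₀ ≤ M)
    {m : Perm (List X)} (hm : m ∈ M) {c : C} (hmc : E o ω A φ S c m) (hc : c ≠ 1) :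
    M.relIndex (GG φ hA S) ≠ 0 := by
  obtain ⟨v, d, hd, hd1, hdv⟩ := exists_dir_mem_sec φ hA (S₀ := S₀) hmc hc M hHM hm
  have hgen : ∀ e ∈ S, ∃ k : ℤ, e * d ^ k ∈ S₀ := by
    intro e he
    have h1 : Subgroup.zpowers (φ d) = ⊤ := zpowers_eq_top_of_prime_card hC hd1
    have h2 : φ e ∈ Subgroup.zpowers (φ d) := by rw [h1]; exact Subgroup.mem_top _
    obtain ⟨k, hk⟩ := h2
    refine ⟨-k, hker _ (S.mul_mem he (S.zpow_mem hd _)) ?_⟩
    rw [map_mul, map_zpow, ← hk]
    simp
  have hsecH := GG_le_sec φ hA hHM v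
  have hsecG : GG φ hA S ≤ sec M v := by
    apply GG_le_of_finitary φ hA htr
    · exact (GG_mono φ hA bot_le).trans hsecH
    · intro e he
      obtain ⟨k, hk⟩ := hgen e he
      have h2 : dir o ω e = dir o ω (e * d ^ k) * (dir o ω d) ^ (-k) := by
        rw [← map_zpow, ← map_mul]; simp
      rw [h2]
      exact (sec M v).mul_mem (hsecH (dir_mem_GG φ hA hk)) ((sec M v).zpow_mem hdv _)
  have hH := isWr_GG φ hA S₀
  let R : Subgroup (Perm (List X)) := M.comap (atv v)
  have hR : R.relIndex (GG φ hA S) ≠ 0 := by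
    apply relIndex_of_normalised φ hA htr hS (d := d) _ _ hd hgen
    · intro g hg
      exact hHM (hH.atv_mem v hg)
    · intro g hg r hr
      exact conj_atv (hsecG hg) hr
  apply (isWr_GG φ hA S).relIndex_of_atv hR v.length M
  intro u hu g hg _
  obtain ⟨h, hh, hhw⟩ := hH.trans_strong htr v u hu.symm
  exact transport_atv (hHM hh) hhw hg

/-- sections of elements of `IsWr` groups -/
theorem IsWr.section_mem {Γ : Subgroup (Perm (List X))} (hΓ : IsWr A Γ) (v : List X) :
    ∀ {g h : Perm (List X)}, g ∈ Γ → (∀ w, g (v ++ w) = v ++ h w) → h ∈ Γ := by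
  induction v with
  | nil =>
    intro g h hg hgh
    have : g = h := by ext1 w; exact hgh w
    rwa [← this]
  | cons x v ih =>
    intro g h hg hgh
    obtain ⟨σ, _, f, hf, rfl⟩ := hΓ.unfold g hg
    apply ih (hf x)
    intro w
    have := hgh w
    rw [List.cons_append, node_cons, List.cons_append, List.cons.injEq] at this
    exact this.2

theorem not_prefix_aux {p q : X} (hpq : p ≠ q) : ∀ (i j : ℕ), i ≠ j → ∀ w : List X,
    ¬ (List.replicate j p ++ [q] <+: (List.replicate i p ++ [q]) ++ w) := by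
  intro i
  induction i with
  | zero =>
    intro j hij w
    rcases j with _ | j
    · exact absurd rfl hij
    · rw [List.replicate_succ, List.replicate_zero, List.nil_append, List.cons_append,
        List.singleton_append, List.cons_prefix_cons]
      exact fun h => hpq h.1
  | succ i ih =>
    intro j hij w
    rcases j with _ | j
    · rw [List.replicate_succ, List.replicate_zero, List.nil_append, List.cons_append,
        List.cons_append, List.cons_prefix_cons]
      exact fun h => hpq h.1.symm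
    · rw [List.replicate_succ, List.replicate_succ, List.cons_append,
        List.cons_append, List.cons_append, List.cons_prefix_cons]
      exact fun h => ih j (fun h' => hij (by rw [h'])) w h.2

/-- a strictly larger directed part gives infinite index -/
theorem relIndex_GG_eq_zero (hinj : Function.Injective (dir o ω)) {p q : X} (hpq : p ≠ q)
    {S₀ S : Subgroup D} {d : D} (hd : d ∈ S) (hd' : d ∉ S₀) :
    (GG φ hA S₀).relIndex (GG φ hA S) = 0 := by
  by_contra hne
  have hfin : Finite (GG φ hA S ⧸ (GG φ hA S₀).subgroupOf (GG φ hA S)) :=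
    Subgroup.index_ne_zero_iff_finite.1 hne
  let G := GG φ hA S
  let v : ℕ → List X := fun n => List.replicate n p ++ [q]
  have hG := isWr_GG φ hA S
  let g : ℕ → G := fun n => ⟨atv (v n) (dir o ω d), hG.atv_mem _ (dir_mem_GG φ hA hd)⟩
  obtain ⟨i, j, hij, h⟩ := Finite.exists_ne_map_eq_of_infinite
    (fun n => (QuotientGroup.mk (g n) : G ⧸ (GG φ hA S₀).subgroupOf G))
  rw [QuotientGroup.eq] at h
  have h1 : (atv (v i) (dir o ω d))⁻¹ * atv (v j) (dir o ω d) ∈ GG φ hA S₀ := h
  have h2 : (dir o ω d)⁻¹ ∈ GG φ hA S₀ := by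
    apply (isWr_GG φ hA S₀).section_mem (v i) h1
    intro w
    rw [Perm.mul_apply, atv_of_not_prefix (not_prefix_aux hpq i j hij w), ← map_inv, atv_append]
  apply hd'
  apply mem_of_dir_mem_GG φ hA hinj
  exact (inv_mem_iff).1 h2

end

end Pool.Agent.Lib.MP_9e467c_al
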