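import Pool.Agent.Lib.MP_9e467c_al.Node
import Pool.Agent.Lib.MP_9e467c_al.Defs

set_option autoImplicit false
set_option linter.unusedSectionVars false

namespace Pool.Agent.Lib.MP_9e467c_al

open Equiv Subgroup

variable {X : Type}

/-- a group that is equal to its own wreath product with `A` -/
structure IsWr (A : Subgroup (Perm X)) (Γ : Subgroup (Perm (List X))) : Prop where
  unfold : ∀ g ∈ Γ, ∃ σ ∈ A, ∃ f : X → Perm (List X), (∀ x, f x ∈ Γ) ∧ g = node σ f
  fold : ∀ σ ∈ A, ∀ f : X → Perm (List X), (∀ x, f x ∈ Γ) → node σ f ∈ Γ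

variable [DecidableEq X]

/-- `g` acting on the subtree at the vertex `v` -/
def atv : List X → (Perm (List X) →* Perm (List X))
  | [] => MonoidHom.id _
  | x :: v => (at' x).comp (atv v)

@[simp] theorem atv_nil (g : Perm (List X)) : atv [] g = g := rfl

theorem atv_cons (x : X) (v : List X) (g : Perm (List X)) :
    atv (x :: v) g = at' x (atv v g) := rfl

@[simp] theorem atv_append (v w : List X) (g : Perm (List X)) : atv v g (v ++ w) = v ++ g w := by
  induction v with
  | nil => rfl
  | cons x v ih => rw [atv_cons, List.cons_append, at'_cons_self, ih, List.cons_append]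

theorem atv_of_not_prefix {v u : List X} (h : ¬ v <+: u) (g : Perm (List X)) :
    atv v g u = u := by
  induction v generalizing u with
  | nil => exact absurd (List.nil_prefix) h
  | cons x v ih =>
    rw [atv_cons]
    rcases u with _ | ⟨y, u⟩
    · rfl
    · by_cases hxy : y = x
      · subst hxy
        rw [at'_cons_self, ih]
        intro h'
        exact h ((List.prefix_cons_inj _).2 h')
      · rw [at'_cons_ne hxy]

namespace IsWr

variable {A : Subgroup (Perm X)} {Γ : Subgroup (Perm (List X))} (hΓ : IsWr A Γ)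
include hΓ

theorem rooted_mem {a : Perm X} (ha : a ∈ A) : rooted a ∈ Γ :=
  hΓ.fold a ha _ (fun _ => Γ.one_mem)

theorem Phi_mem {f : X → Perm (List X)} (hf : ∀ x, f x ∈ Γ) : Phi f ∈ Γ :=
  hΓ.fold 1 A.one_mem f hf

theorem at'_mem (x : X) {g : Perm (List X)} (hg : g ∈ Γ) : at' x g ∈ Γ := by
  apply hΓ.Phi_mem
  intro y
  by_cases h : y = x
  · subst h; simpa using hg
  · rw [MonoidHom.mulSingle_apply, Pi.mulSingle_eq_of_ne h]; exact Γ.one_mem

theorem atv_mem (v : List X) {g : Perm (List X)} (hg : g ∈ Γ) : atv v g ∈ Γ := by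
  induction v with
  | nil => exact hg
  | cons x v ih => exact hΓ.at'_mem x ih

theorem length_eq (w : List X) : ∀ {g : Perm (List X)}, g ∈ Γ → (g w).length = w.length := by
  induction w with
  | nil =>
    intro g hg
    obtain ⟨σ, _, f, _, rfl⟩ := hΓ.unfold g hg
    rfl
  | cons x w ih =>
    intro g hg
    obtain ⟨σ, _, f, hf, rfl⟩ := hΓ.unfold g hg
    rw [node_cons, List.length_cons, List.length_cons, ih (hf x)]

theorem snoc (w : List X) : ∀ {g : Perm (List X)}, g ∈ Γ → ∀ x, ∃ y, g (w ++ [x]) = g w ++ [y] := by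
  induction w with
  | nil =>
    intro g hg x
    obtain ⟨σ, _, f, hf, rfl⟩ := hΓ.unfold g hg
    refine ⟨σ x, ?_⟩
    have : f x [] = [] := by
      rw [← List.length_eq_zero_iff, hΓ.length_eq [] (hf x)]; rfl
    simp [this]
  | cons z w ih =>
    intro g hg x
    obtain ⟨σ, _, f, hf, rfl⟩ := hΓ.unfold g hg
    obtain ⟨y, hy⟩ := ih (hf z) x
    refine ⟨y, ?_⟩
    rw [List.cons_append, node_cons, hy, node_cons, List.cons_append]

theorem adj {g : Perm (List X)} (hg : g ∈ Γ) {u v : List X} (h : (tree X).Adj u v) :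
    (tree X).Adj (g u) (g v) := by
  rcases h with ⟨x, rfl⟩ | ⟨x, rfl⟩
  · exact Or.inl (hΓ.snoc u hg x)
  · exact Or.inr (hΓ.snoc v hg x)

theorem le_aut : Γ ≤ AutTree X := by
  intro g hg
  refine ⟨fun u v => ⟨fun h => ?_, fun h => hΓ.adj hg h⟩, fun v => hΓ.length_eq v hg⟩
  have := hΓ.adj (Γ.inv_mem hg) h
  simpa using this

/-- a strong form of spherical transitivity: trivial sections -/
theorem trans_strong (hA : ∀ x y : X, ∃ a ∈ A, a x = y) :
    ∀ u v : List X, u.length = v.length → ∃ g ∈ Γ, ∀ w, g (u ++ w) = v ++ w := by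
  intro u
  induction u with
  | nil =>
    intro v hv
    have : v = [] := by
      rw [← List.length_eq_zero_iff, ← hv]; rfl
    subst this
    exact ⟨1, Γ.one_mem, fun w => rfl⟩
  | cons x u ih =>
    intro v hv
    rcases v with _ | ⟨y, v⟩
    · simp at hv
    · simp only [List.length_cons, add_left_inj] at hv
      obtain ⟨g, hg, hgw⟩ := ih v hv
      obtain ⟨a, ha, hax⟩ := hA x y
      refine ⟨rooted a * at' x g, Γ.mul_mem (hΓ.rooted_mem ha) (hΓ.at'_mem x hg), fun w => ?_⟩
      rw [Perm.mul_apply, List.cons_append, at'_cons_self, rooted_cons, hax, hgw, List.cons_append]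

theorem transitive (hA : ∀ x y : X, ∃ a ∈ A, a x = y) (u v : List X) (h : u.length = v.length) :
    ∃ g ∈ Γ, g u = v := by
  obtain ⟨g, hg, h1⟩ := hΓ.trans_strong hA u v h
  exact ⟨g, hg, by simpa using h1 []⟩

variable [Fintype X]

/-- the first layer stabiliser has finite index -/
theorem relIndex_stab : (Subgroup.map Phi (Subgroup.pi Set.univ (fun _ : X => Γ))).relIndex Γ ≠ 0 := by
  classical
  have h1 : ∀ x : X, (MulAction.stabilizer (Perm (List X)) [x]).relIndex Γ ≠ 0 := by
    intro x
    have h2 : (MulAction.stabilizer (Perm (List X)) [x]).subgroupOf Γ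
        = MulAction.stabilizer Γ [x] := by
      ext g; rfl
    rw [Subgroup.relIndex, h2, MulAction.index_stabilizer]
    have h3 : MulAction.orbit Γ [x] ⊆ Set.range (fun y : X => [y]) := by
      rintro _ ⟨g, rfl⟩
      have h4 : ((g : Perm (List X)) [x]).length = 1 := hΓ.length_eq [x] g.2
      obtain ⟨y, hy⟩ := List.length_eq_one_iff.1 h4
      exact ⟨y, hy.symm⟩
    have h5 : (MulAction.orbit Γ [x]).Finite := (Set.finite_range _).subset h3
    intro h6
    rw [Set.ncard_eq_zero h5] at h6
    exact (MulAction.nonempty_orbit (M := Γ) [x]).ne_empty h6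
  have h2 := Subgroup.relIndex_iInf_ne_zero h1
  have h3 : (⨅ x : X, MulAction.stabilizer (Perm (List X)) [x]) ⊓ Γ ≤
      Subgroup.map Phi (Subgroup.pi Set.univ (fun _ : X => Γ)) := by
    rintro g ⟨hg1, hg2⟩
    obtain ⟨σ, hσ, f, hf, rfl⟩ := hΓ.unfold g hg2
    have h4 : σ = 1 := by
      ext1 x
      have h5 : node σ f [x] = [x] := (Subgroup.mem_iInf.1 hg1) x
      rw [node_cons, List.cons.injEq] at h5
      exact h5.1
    subst h4
    exact ⟨f, fun x _ => hf x, rfl⟩
  intro h4
  apply h2
  have h5 := Subgroup.relIndex_eq_zero_of_le_left h3 h4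
  rwa [Subgroup.inf_relIndex_right] at h5

/-- main finite index lemma -/
theorem relIndex_of_at' {M : Subgroup (Perm (List X))} (R : X → Subgroup (Perm (List X)))
    (hR : ∀ y, (R y).relIndex Γ ≠ 0) (hM : ∀ y, ∀ r ∈ R y, r ∈ Γ → at' y r ∈ M) :
    M.relIndex Γ ≠ 0 := by
  have h1 : (Subgroup.pi Set.univ (fun y : X => R y ⊓ Γ)).relIndex
      (Subgroup.pi Set.univ (fun _ : X => Γ)) ≠ 0 := by
    have h2 : (⨅ y : X, (R y ⊓ Γ).comap (Pi.evalMonoidHom (fun _ : X => Perm (List X)) y)).relIndex
        (Subgroup.pi Set.univ (fun _ : X => Γ)) ≠ 0 := by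
      apply Subgroup.relIndex_iInf_ne_zero
      intro y
      rw [Subgroup.relIndex_comap]
      intro h3
      apply hR y
      rw [← Subgroup.inf_relIndex_right]
      apply Subgroup.relIndex_eq_zero_of_le_right _ h3
      rintro _ ⟨f, hf, rfl⟩
      exact hf y (Set.mem_univ y)
    intro h3
    apply h2
    apply Subgroup.relIndex_eq_zero_of_le_left _ h3
    intro f hf y _
    rw [Subgroup.mem_iInf] at hf
    exact hf y
  rw [← Subgroup.relIndex_map_map_of_injective _ _ Phi_injective] at h1
  have h2 := Subgroup.relIndex_ne_zero_trans h1 hΓ.relIndex_stab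
  intro h3
  apply h2
  apply Subgroup.relIndex_eq_zero_of_le_left _ h3
  rintro _ ⟨f, hf, rfl⟩
  apply MP_9e467c_al.Phi_mem
  intro x
  exact hM x (f x) (hf x (Set.mem_univ x)).1 (hf x (Set.mem_univ x)).2

theorem relIndex_of_atv {K : Subgroup (Perm (List X))} (hK : K.relIndex Γ ≠ 0) (n : ℕ) :
    ∀ M : Subgroup (Perm (List X)),
      (∀ v : List X, v.length = n → ∀ g ∈ K, g ∈ Γ → atv v g ∈ M) → M.relIndex Γ ≠ 0 := by
  induction n with
  | zero =>
    intro M hM h
    apply hK
    have h2 : K ⊓ Γ ≤ M := by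
      intro g hg
      exact hM [] rfl g hg.1 hg.2
    rw [← Subgroup.inf_relIndex_right]
    exact Subgroup.relIndex_eq_zero_of_le_left h2 h
  | succ n ih =>
    intro M hM
    apply hΓ.relIndex_of_at' (fun x => M.comap (at' x))
    · intro x
      apply ih
      intro v hv g hg hg2
      exact hM (x :: v) (by simp [hv]) g hg hg2
    · intro y r hr _
      exact hr

theorem atv_mem_rist (v : List X) {g : Perm (List X)} (hg : g ∈ Γ) : atv v g ∈ rist Γ v := by
  have key : ∀ u : List X, u.length = v.length → u ≠ v → ∀ w : List X, u <+: w → atv v g w = w := by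
    intro u hu huv w hw
    apply atv_of_not_prefix
    intro hvw
    apply huv
    exact (List.prefix_of_prefix_length_le hw hvw hu.le).eq_of_length hu
  refine ⟨⟨hΓ.atv_mem v hg, ?_⟩, key⟩
  intro u hu
  by_cases huv : u = v
  · subst huv
    have h1 := atv_append u [] g
    have h2 : g [] = [] := by
      rw [← List.length_eq_zero_iff, hΓ.length_eq [] hg]; rfl
    rwa [h2, List.append_nil] at h1
  · exact key u hu huv u (List.prefix_refl u)

/-- such a group is a branch group -/
theorem isBranch (hA : ∀ x y : X, ∃ a ∈ A, a x = y) : IsBranch Γ where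
  le_aut := hΓ.le_aut
  transitive := hΓ.transitive hA
  finite_index := by
    intro n
    apply hΓ.relIndex_of_atv (K := Γ) (by rw [Subgroup.relIndex_self]; exact one_ne_zero) n
    intro v hv g hg _
    exact Subgroup.subset_closure ⟨v, hv, hΓ.atv_mem_rist v hg⟩

end IsWr

end Pool.Agent.Lib.MP_9e467c_al
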