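import Pool.Agent.Lib.MP_9e467c_al.Dir
import Pool.Agent.Lib.MP_9e467c_al.Wr

set_option autoImplicit false
set_option linter.unusedSectionVars false

namespace Pool.Agent.Lib.MP_9e467c_al

open Equiv Subgroup

/-- section subgroup at a vertex -/
def sec {X : Type} (M : Subgroup (Perm (List X))) (v : List X) : Subgroup (Perm (List X)) where
  carrier := {g | ∃ m ∈ M, ∀ w, m (v ++ w) = v ++ g w}
  one_mem' := ⟨1, M.one_mem, fun _ => rfl⟩
  mul_mem' := by
    rintro g h ⟨m, hm, hm'⟩ ⟨n, hn, hn'⟩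
    exact ⟨m * n, M.mul_mem hm hn, fun w => by
      rw [Perm.mul_apply, hn', hm', Perm.mul_apply]⟩
  inv_mem' := by
    rintro g ⟨m, hm, hm'⟩
    refine ⟨m⁻¹, M.inv_mem hm, fun w => ?_⟩
    rw [Perm.inv_eq_iff_eq, hm']
    simp

theorem mem_sec {X : Type} {M : Subgroup (Perm (List X))} {v : List X} {g : Perm (List X)} :
    g ∈ sec M v ↔ ∃ m ∈ M, ∀ w, m (v ++ w) = v ++ g w := Iff.rfl

theorem sec_sec_le {X : Type} {M : Subgroup (Perm (List X))} (x : X) (v : List X) :
    sec (sec M [x]) v ≤ sec M (x :: v) := by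
  rintro g ⟨m, ⟨n, hn, hn'⟩, hm⟩
  refine ⟨n, hn, fun w => ?_⟩
  have := hn' (v ++ w)
  rw [List.singleton_append] at this
  rw [List.cons_append, this, hm]
  rfl

section

variable {X D C : Type} [Fintype X] [DecidableEq X] [Group D] [CommGroup C]
  {o : X} {ω : X → D →* Perm X} {A : Subgroup (Perm X)} (φ : D →* C)
  (hA : ∀ (d : D) (x : X), x ≠ o → ω x d ∈ A)

/-- the group with directed part `S` -/
def GG (S : Subgroup D) : Subgroup (Perm (List X)) where
  carrier := {g | ∃ c : C, E o ω A φ S c g}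
  one_mem' := ⟨1, E.one⟩
  mul_mem' := by
    rintro g h ⟨c, hc⟩ ⟨c', hc'⟩
    exact ⟨c * c', hc.mul (fun d _ x hx => hA d x hx) hc'⟩
  inv_mem' := by
    rintro g ⟨c, hc⟩
    exact ⟨c⁻¹, hc.inv⟩

theorem mem_GG {S : Subgroup D} {g : Perm (List X)} :
    g ∈ GG φ hA S ↔ ∃ c : C, E o ω A φ S c g := Iff.rfl

theorem isWr_GG (S : Subgroup D) : IsWr A (GG φ hA S) where
  unfold := by
    rintro g ⟨c, hc⟩
    obtain ⟨σ, hσ, c', f, hf, _, rfl⟩ := hc.unfold (fun d _ x hx => hA d x hx)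
    exact ⟨σ, hσ, f, fun x => ⟨c' x, hf x⟩, rfl⟩
  fold := by
    intro σ hσ f hf
    choose c hc using hf
    exact ⟨_, E.node σ hσ c f hc⟩

theorem GG_mono {S S' : Subgroup D} (h : S ≤ S') : GG φ hA S ≤ GG φ hA S' := by
  rintro g ⟨c, hc⟩
  exact ⟨c, hc.mono h⟩

theorem dir_mem_GG {S : Subgroup D} {d : D} (hd : d ∈ S) : dir o ω d ∈ GG φ hA S :=
  ⟨_, E.dir d hd⟩

theorem mem_of_dir_mem_GG (hinj : Function.Injective (dir o ω)) {S : Subgroup D} {d : D}
    (hd : dir o ω d ∈ GG φ hA S) : d ∈ S := by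
  obtain ⟨c, hc⟩ := hd
  exact (hc.dir_unique hinj d rfl).2

/-- `GG S` is the smallest group with the evident closure properties -/
theorem GG_le {S : Subgroup D} {Γ : Subgroup (Perm (List X))}
    (hroot : ∀ a ∈ A, rooted a ∈ Γ) (hdir : ∀ d ∈ S, dir o ω d ∈ Γ)
    (hat : ∀ x, ∀ g ∈ Γ, at' x g ∈ Γ) : GG φ hA S ≤ Γ := by
  rintro g ⟨c, hc⟩
  induction hc with
  | root a ha => exact hroot a ha
  | dir d hd => exact hdir d hd
  | node σ hσ c f _ ih =>
    rw [node_eq_rooted_mul_Phi]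
    exact Γ.mul_mem (hroot σ hσ) (Phi_mem fun x => hat x _ (ih x))

/-- shifting a directed automorphism -/
theorem at'_dir_mem {Γ : Subgroup (Perm (List X))} {d : D} (hdir : dir o ω d ∈ Γ)
    (h : ∀ x, x ≠ o → at' x (rooted (ω x d)) ∈ Γ) : at' o (dir o ω d) ∈ Γ := by
  have h1 : Phi (fun x => if x = o then 1 else rooted (ω x d)) ∈ Γ := by
    apply Phi_mem
    intro x
    by_cases hx : x = o
    · rw [if_pos hx, map_one]; exact Γ.one_mem
    · rw [if_neg hx]; exact h x hx
  have h2 : at' o (dir o ω d) = dir o ω d * (Phi (fun x => if x = o then 1 else rooted (ω x d)))⁻¹ := by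
    have h3 : dir o ω d = Phi (dirSec o ω d) := dir_eq o ω d
    rw [eq_mul_inv_iff_mul_eq, at'_eq, ← map_mul]
    conv_rhs => rw [h3]
    congr 1
    funext x
    by_cases hx : x = o
    · subst hx; simp
    · simp [hx, dirSec_ne o ω d hx]
  rw [h2]
  exact Γ.mul_mem hdir (Γ.inv_mem h1)

theorem dir_mem_of_at'_mem {Γ : Subgroup (Perm (List X))} {d : D}
    (hdir : at' o (dir o ω d) ∈ Γ)
    (h : ∀ x, x ≠ o → at' x (rooted (ω x d)) ∈ Γ) : dir o ω d ∈ Γ := by
  rw [dir_eq, ← Phi_eq]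
  apply Phi_mem
  intro x
  by_cases hx : x = o
  · subst hx; rw [dirSec_self]; exact hdir
  · rw [dirSec_ne o ω d hx]; exact h x hx

/-- If `M` contains the finitary group and all `dir d`, `d ∈ S`, then it contains `GG S`. -/
theorem GG_le_of_finitary (htr : ∀ x y : X, ∃ a ∈ A, a x = y) {S : Subgroup D}
    {M : Subgroup (Perm (List X))}
    (hfin : GG φ hA (⊥ : Subgroup D) ≤ M) (hdir : ∀ d ∈ S, dir o ω d ∈ M) :
    GG φ hA S ≤ M := by
  have hF := isWr_GG φ hA (⊥ : Subgroup D)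
  let M' : Subgroup (Perm (List X)) :=
    Subgroup.closure ((GG φ hA (⊥ : Subgroup D) : Set (Perm (List X))) ∪
      {g | ∃ d ∈ S, g = dir o ω d})
  have hFM : GG φ hA (⊥ : Subgroup D) ≤ M' := fun g hg => Subgroup.subset_closure (Or.inl hg)
  have hM' : M' ≤ M := by
    rw [Subgroup.closure_le]
    rintro g (hg | ⟨d, hd, rfl⟩)
    · exact hfin hg
    · exact hdir d hd
  refine le_trans ?_ hM'
  apply GG_le
  · intro a ha
    exact hFM (hF.rooted_mem ha)
  · intro d hd
    exact Subgroup.subset_closure (Or.inr ⟨d, hd, rfl⟩)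
  · intro x
    have : M' ≤ M'.comap (at' x) := by
      rw [Subgroup.closure_le]
      rintro g (hg | ⟨d, hd, rfl⟩)
      · exact hFM (hF.at'_mem x hg)
      · obtain ⟨a, ha, hax⟩ := htr o x
        have h1 : at' o (dir o ω d) ∈ M' := by
          apply at'_dir_mem
          · exact Subgroup.subset_closure (Or.inr ⟨d, hd, rfl⟩)
          · intro y hy
            exact hFM (hF.at'_mem y (hF.rooted_mem (hA d y hy)))
        have h2 := M'.mul_mem (M'.mul_mem (hFM (hF.rooted_mem ha)) h1)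
          (M'.inv_mem (hFM (hF.rooted_mem ha)))
        rw [rooted_conj_at', hax] at h2
        exact h2
    exact this

/-- sections of elements with non trivial exponent -/
theorem exists_dir_mem_sec {S S₀ : Subgroup D} {c : C} {m : Perm (List X)}
    (hm : E o ω A φ S c m) (hc : c ≠ 1) :
    ∀ M : Subgroup (Perm (List X)), GG φ hA S₀ ≤ M → m ∈ M →
      ∃ v : List X, ∃ d ∈ S, φ d ≠ 1 ∧ dir o ω d ∈ sec M v := by
  induction hm with
  | root a ha => exact absurd rfl hc
  | dir d hd =>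
    intro M _ hM
    exact ⟨[], d, hd, hc, ⟨_, hM, fun w => rfl⟩⟩
  | node σ hσ c f h ih =>
    intro M hHM hM
    obtain ⟨x, _, hx⟩ := Finset.exists_ne_one_of_prod_ne_one hc
    have hH := isWr_GG φ hA S₀
    have h1 : f x ∈ sec M [x] := by
      refine ⟨(rooted σ)⁻¹ * node σ f, M.mul_mem (M.inv_mem (hHM (hH.rooted_mem hσ))) hM, ?_⟩
      intro w
      rw [node_eq_rooted_mul_Phi, inv_mul_cancel_left]
      rfl
    have h2 : GG φ hA S₀ ≤ sec M [x] := by
      intro g hg
      exact ⟨at' x g, hHM (hH.at'_mem x hg), fun w => at'_cons_self x g w⟩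
    obtain ⟨v, d, hd, hd1, hdv⟩ := ih x hx (sec M [x]) h2 h1
    exact ⟨x :: v, d, hd, hd1, sec_sec_le x v hdv⟩

theorem GG_le_sec {S₀ : Subgroup D} {M : Subgroup (Perm (List X))} (h : GG φ hA S₀ ≤ M)
    (v : List X) : GG φ hA S₀ ≤ sec M v := by
  intro g hg
  exact ⟨atv v g, h ((isWr_GG φ hA S₀).atv_mem v hg), fun w => atv_append v w g⟩

/-- conjugation of elements supported on a subtree -/
theorem conj_atv {M : Subgroup (Perm (List X))} {v : List X} {g : Perm (List X)}
    (hg : g ∈ sec M v) {r : Perm (List X)} (hr : atv v r ∈ M) : atv v (g * r * g⁻¹) ∈ M := by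
  obtain ⟨m, hm, hm'⟩ := hg
  have h1 : atv v (g * r * g⁻¹) = m * atv v r * m⁻¹ := by
    ext1 u
    have hinv : ∀ w, m⁻¹ (v ++ w) = v ++ g⁻¹ w := by
      intro w
      rw [Perm.inv_eq_iff_eq, hm']; simp
    by_cases h : v <+: u
    · obtain ⟨w, rfl⟩ := h
      show atv v (g * r * g⁻¹) (v ++ w) = m (atv v r (m⁻¹ (v ++ w)))
      rw [atv_append, hinv, atv_append, hm']
      rfl
    · rw [atv_of_not_prefix h, Perm.mul_apply, Perm.mul_apply, atv_of_not_prefix]
      · simp
      · rintro ⟨w, hw⟩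
        apply h
        have h2 := congrArg m hw
        rw [hm'] at h2
        exact ⟨g w, by rw [h2]; simp⟩
  rw [h1]
  exact M.mul_mem (M.mul_mem hm hr) (M.inv_mem hm)

/-- transport of elements supported on a subtree to another subtree -/
theorem transport_atv {M : Subgroup (Perm (List X))} {u v : List X} {h : Perm (List X)}
    (hM : h ∈ M) (hh : ∀ w, h (u ++ w) = v ++ w) {r : Perm (List X)} (hr : atv u r ∈ M) :
    atv v r ∈ M := by
  have h1 : atv v r = h * atv u r * h⁻¹ := by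
    ext1 z
    have hinv : ∀ w, h⁻¹ (v ++ w) = u ++ w := by
      intro w
      rw [Perm.inv_eq_iff_eq, hh]
    by_cases hz : v <+: z
    · obtain ⟨w, rfl⟩ := hz
      rw [atv_append, Perm.mul_apply, Perm.mul_apply, hinv, atv_append, hh]
    · rw [atv_of_not_prefix hz, Perm.mul_apply, Perm.mul_apply, atv_of_not_prefix]
      · simp
      · rintro ⟨w, hw⟩
        apply hz
        have h2 := congrArg h hw
        rw [hh] at h2
        exact ⟨w, by rw [h2]; simp⟩
  rw [h1]
  exact M.mul_mem (M.mul_mem hM hr) (M.inv_mem hM)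

end

end Pool.Agent.Lib.MP_9e467c_al
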