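import Mathlib

set_option autoImplicit false

namespace Pool.Agent.Lib.MP_9e467c_al

open Equiv Subgroup

section basic

variable {X : Type}

/-- `node σ f` maps the word `x w` to `σ(x) f_x(w)`. -/
def node (σ : Perm X) (f : X → Perm (List X)) : Perm (List X) where
  toFun
    | [] => []
    | x :: w => σ x :: f x w
  invFun
    | [] => []
    | x :: w => σ.symm x :: (f (σ.symm x)).symm w
  left_inv := by
    rintro (_ | ⟨x, w⟩) <;> simp
  right_inv := by
    rintro (_ | ⟨x, w⟩) <;> simp

@[simp] theorem node_nil (σ : Perm X) (f : X → Perm (List X)) : node σ f [] = [] := rfl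

@[simp] theorem node_cons (σ : Perm X) (f : X → Perm (List X)) (x : X) (w : List X) :
    node σ f (x :: w) = σ x :: f x w := rfl

theorem node_mul (σ τ : Perm X) (f g : X → Perm (List X)) :
    node σ f * node τ g = node (σ * τ) (fun x => f (τ x) * g x) := by
  ext1 w
  rcases w with _ | ⟨x, w⟩ <;> simp

theorem node_one : node (1 : Perm X) (1 : X → Perm (List X)) = 1 := by
  ext1 w
  rcases w with _ | ⟨x, w⟩ <;> simp

theorem node_one' : node (1 : Perm X) (fun _ => (1 : Perm (List X))) = 1 := node_one

theorem node_inv (σ : Perm X) (f : X → Perm (List X)) :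
    (node σ f)⁻¹ = node σ⁻¹ (fun x => (f (σ⁻¹ x))⁻¹) := by
  rw [inv_eq_iff_mul_eq_one, node_mul]
  rw [← node_one]
  congr 1
  · simp
  · funext x; simp

theorem node_injective {σ τ : Perm X} {f g : X → Perm (List X)} (h : node σ f = node τ g) :
    σ = τ ∧ f = g := by
  constructor
  · ext1 x
    have := congrArg (fun e : Perm (List X) => e [x]) h
    simp only [node_cons, List.cons.injEq] at this
    exact this.1
  · funext x
    ext1 w
    have := congrArg (fun e : Perm (List X) => e (x :: w)) h
    simp only [node_cons, List.cons.injEq] at this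
    exact this.2

/-- the rooted automorphism -/
def rooted : Perm X →* Perm (List X) where
  toFun σ := node σ (fun _ => 1)
  map_one' := node_one'
  map_mul' σ τ := by rw [node_mul]; simp

theorem rooted_eq (σ : Perm X) : rooted σ = node σ (fun _ => 1) := rfl

@[simp] theorem rooted_cons (σ : Perm X) (x : X) (w : List X) :
    rooted σ (x :: w) = σ x :: w := rfl

@[simp] theorem rooted_nil (σ : Perm X) : rooted σ [] = [] := rfl

/-- the embedding of the direct power -/
def Phi : (X → Perm (List X)) →* Perm (List X) where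
  toFun f := node 1 f
  map_one' := node_one
  map_mul' f g := by rw [node_mul]; simp; rfl

theorem Phi_eq (f : X → Perm (List X)) : Phi f = node 1 f := rfl

@[simp] theorem Phi_cons (f : X → Perm (List X)) (x : X) (w : List X) :
    Phi f (x :: w) = x :: f x w := rfl

@[simp] theorem Phi_nil (f : X → Perm (List X)) : Phi f [] = [] := rfl

theorem Phi_injective : Function.Injective (Phi : (X → Perm (List X)) →* Perm (List X)) := by
  intro f g h
  exact (node_injective h).2

theorem node_eq_rooted_mul_Phi (σ : Perm X) (f : X → Perm (List X)) :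
    node σ f = rooted σ * Phi f := by
  rw [rooted_eq, Phi_eq, node_mul]; simp

theorem rooted_conj_Phi (σ : Perm X) (f : X → Perm (List X)) :
    rooted σ * Phi f * (rooted σ)⁻¹ = Phi (fun x => f (σ⁻¹ x)) := by
  rw [rooted_eq, Phi_eq, Phi_eq, node_inv, node_mul, node_mul]
  simp

variable [DecidableEq X]

/-- the embedding `g ↦ (g at x)` -/
def at' (x : X) : Perm (List X) →* Perm (List X) :=
  Phi.comp (MonoidHom.mulSingle (fun _ : X => Perm (List X)) x)

theorem at'_eq (x : X) (g : Perm (List X)) : at' x g = Phi (Pi.mulSingle x g) := rfl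

@[simp] theorem at'_cons_self (x : X) (g : Perm (List X)) (w : List X) :
    at' x g (x :: w) = x :: g w := by
  rw [at'_eq, Phi_cons]; simp

theorem at'_cons_ne {x y : X} (h : y ≠ x) (g : Perm (List X)) (w : List X) :
    at' x g (y :: w) = y :: w := by
  rw [at'_eq, Phi_cons]; simp [h]

@[simp] theorem at'_nil (x : X) (g : Perm (List X)) : at' x g [] = [] := rfl

theorem at'_injective (x : X) : Function.Injective (at' x) := by
  intro f g h
  have h2 := Phi_injective h
  exact Pi.mulSingle_injective (M := fun _ : X => Perm (List X)) x h2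

theorem rooted_conj_at' (σ : Perm X) (x : X) (g : Perm (List X)) :
    rooted σ * at' x g * (rooted σ)⁻¹ = at' (σ x) g := by
  rw [at'_eq, at'_eq, rooted_conj_Phi]
  congr 1
  funext y
  by_cases h : y = σ x
  · subst h; simp
  · rw [Pi.mulSingle_eq_of_ne h, Pi.mulSingle_eq_of_ne]
    intro h'
    apply h
    rw [← h']; simp

theorem node_conj_at' (σ : Perm X) (f : X → Perm (List X)) (x : X) (g : Perm (List X)) :
    node σ f * at' x g * (node σ f)⁻¹ = at' (σ x) (f x * g * (f x)⁻¹) := by
  rw [node_eq_rooted_mul_Phi, mul_inv_rev]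
  have : rooted σ * Phi f * at' x g * ((Phi f)⁻¹ * (rooted σ)⁻¹)
      = rooted σ * (Phi f * at' x g * (Phi f)⁻¹) * (rooted σ)⁻¹ := by group
  rw [this]
  have h2 : Phi f * at' x g * (Phi f)⁻¹ = at' x (f x * g * (f x)⁻¹) := by
    rw [at'_eq, at'_eq, ← map_mul, ← map_inv, ← map_mul]
    congr 1
    funext y
    by_cases h : y = x
    · subst h; simp
    · simp [h]
  rw [h2, rooted_conj_at']

theorem at'_commute {x y : X} (h : x ≠ y) (g k : Perm (List X)) :
    Commute (at' x g) (at' y k) := by
  rw [at'_eq, at'_eq]
  have := Pi.mulSingle_commute (f := fun _ : X => Perm (List X)) h g k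
  exact this.map Phi

variable [Fintype X]

theorem Phi_mem {K : Subgroup (Perm (List X))} {f : X → Perm (List X)}
    (h : ∀ x, at' x (f x) ∈ K) : Phi f ∈ K := by
  have h1 : f ∈ K.comap Phi := by
    have : ∀ x, (Pi.mulSingle x (f x) : X → Perm (List X)) ∈ K.comap Phi := by
      intro x
      exact h x
    exact Subgroup.pi_mem_of_mulSingle_mem _ this
  exact h1

end basic

end Pool.Agent.Lib.MP_9e467c_al
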